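import Pool.Agent.Helper60.MA.Flag
import Pool.Agent.Helper60.MA.Red

/-!
# Block MAT: the generic reals match
-/

set_option linter.unusedSectionVars false
set_option linter.unusedVariables false

namespace Pool.Agent.Helper60.MA

variable {Ω L : Type} [LinearOrder Ω] [LinearOrder L]

/-- the first bits of a name are decided -/
theorem Sys.decide_bits [WellFoundedLT Ω] {S : Sys Ω L} {α h : Ω} (hh : S.Nme α h) {r : Cd Ω}
    (hr : S.CondB α r) (n : ℕ) :
    ∃ r', S.CondB α r' ∧ S.Le r' r ∧ ∀ k < n, ∃ i, S.Says (S.Le r') h k i := by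
  induction n with
  | zero => exact ⟨r, hr, Sys.Le.refl r, fun k hk => absurd hk (by omega)⟩
  | succ n ih =>
    obtain ⟨r1, h1, h2, h3⟩ := ih
    obtain ⟨j, r2, h4, h5, h6⟩ := hh.pre n r1 h1
    refine ⟨r2, h4, h5.trans h2, fun k hk => ?_⟩
    rcases Nat.lt_succ_iff_lt_or_eq.1 hk with hk | rfl
    · obtain ⟨i, hi⟩ := h3 k hk
      exact ⟨i, hi.mono fun c hc => h5.trans hc⟩
    · exact ⟨_, j, rfl, h6⟩

/-- block MAT: the generic reals match -/
theorem Sys.match_dense [WellFoundedLT Ω] {S : Sys Ω L} {H : Hull Ω} (hH : S.Closed H) {α : Ω}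
    (hα : S.cat α = false) {J h : Ω} (hJ : S.Nme α J) (hJp : S.IsPart (S.CondB α) J)
    (hh : S.Nme α h) (hJH : J ∈ H.na) (hhH : h ∈ H.na)
    (hlab : ∀ e ∈ H.co, S.cat e = true → S.lab e < S.lab α) {p : Cd Ω} (hp : S.Cond p) (m : ℕ) :
    ∃ q, S.Cond q ∧ S.Le q p ∧ ∃ u v, m ≤ u ∧ u < v ∧ v ≤ (q α).word.length ∧
      S.Says (S.Le q) J u true ∧ S.Says (S.Le q) J v true ∧
      ∀ k, u ≤ k → k < v → ∃ i t, (q α).word[k]? = some (i, t) ∧ S.Says (S.Le q) h k i := by
  -- the side condition at `α`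
  have hside : ∀ γ ∈ (p α).side, γ < α ∧ S.lab α ≤ S.lab γ ∧ S.Val γ := by
    intro γ hγ
    have h0 : p α ≠ 0 := by
      intro h0
      rw [h0] at hγ
      exact absurd hγ (Finset.notMem_empty _)
    exact (hp.2 α h0).2 hα γ hγ
  -- the reduction
  obtain ⟨ρ, hρ1, hρ2, hρ3⟩ := Sys.reduction hH α (Sys.cut α p) (hp.cut α) (p α).side (by
    intro c hc
    obtain ⟨h1, h2, h3⟩ := hside c hc
    refine ⟨h1, h3, fun h4 => ?_⟩
    exact absurd (hlab c h4 h3.cat) (not_lt.2 h2))
  set l : ℕ := (p α).word.length with hl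
  set M : ℕ := max m (max l ((p α).side.sup fun γ => (p γ).word.length)) with hM
  -- two ones of the partition
  obtain ⟨r1, u, hr1, hr1ρ, hMu, hu⟩ := hJp ρ hρ1 M
  obtain ⟨r2, v, hr2, hr2r1, huv, hv⟩ := hJp r1 hr1 (u + 1)
  obtain ⟨r, hr, hrr2, hbits⟩ := Sys.decide_bits hh hr2 v
  have hmu : m ≤ u := le_trans (le_max_left _ _) hMu
  have hlu : l ≤ u := le_trans (le_trans (le_max_left _ _) (le_max_right _ _)) hMu
  have hγu : ∀ γ ∈ (p α).side, (p γ).word.length ≤ u := by
    intro γ hγ
    have h1 : (p γ).word.length ≤ (p α).side.sup fun γ => (p γ).word.length :=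
      Finset.le_sup (f := fun γ => (p γ).word.length) hγ
    exact h1.trans (le_trans (le_trans (le_max_right _ _) (le_max_right _ _)) hMu)
  -- restrict to the hull
  have hres : ∀ ν ∈ H.na, ∀ k i, S.Says (S.Le r) ν k i → S.Says (S.Le (S.res H r)) ν k i := by
    rintro ν hν k i ⟨n, hn1, hn2⟩
    exact ⟨n, hn1, Sys.res_le hH ((hH.dec ν).1 hν k n) hn2⟩
  have hJu := hres J hJH u true (hu.mono fun c hc => hrr2.trans (hr2r1.trans hc))
  have hJv := hres J hJH v true (hv.mono fun c hc => hrr2.trans hc)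
  have hbit : ∃ bit : ℕ → Bool, ∀ k < v, S.Says (S.Le (S.res H r)) h k (bit k) := by
    refine ⟨fun k => if hk : k < v then (hbits k hk).choose else false, fun k hk => ?_⟩
    simp only [dif_pos hk]
    exact hres h hhH k _ (hbits k hk).choose_spec
  obtain ⟨bit, hbit⟩ := hbit
  obtain ⟨q', hq', hq'p, hq't, hq'f⟩ := hρ3 (S.res H r) (hr.res hH) (Sys.res_inH r)
    (Sys.res_le hH hρ2 (hrr2.trans (hr2r1.trans hr1ρ))) v
  -- the new block
  set β : List Sym := (List.range (v - l)).map fun j =>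
    if l + j < u then (false, false) else (bit (l + j), false) with hβ
  have hβget : ∀ j, j < v - l → β[j]? =
      some (if l + j < u then (false, false) else (bit (l + j), false)) := by
    intro j hj
    rw [hβ, List.getElem?_map, List.getElem?_range hj]
    rfl
  have hβlen : β.length = v - l := by rw [hβ, List.length_map, List.length_range]
  set x : Ent Ω := ⟨(p α).stem ++ [β], (p α).side⟩ with hx
  have hxword : x.word = (p α).word ++ β := by
    rw [Ent.word, Ent.word, hx]
    simp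
  have hqp : S.LeB α q' p := Sys.LeB_cut_right.1 (hq'p.leB α)
  have hOk : OkM q' α (p α).side l β := by
    intro k t hk γ hγ hγα
    have hkv : k < v - l := by
      by_contra hcon
      rw [List.getElem?_eq_none (by rw [hβlen]; omega)] at hk
      exact absurd hk (by simp)
    rw [hβget k hkv] at hk
    have huk : ¬ l + k < u := by
      intro h1
      rw [if_pos h1] at hk
      simp at hk
    obtain ⟨h1, h2⟩ := hq'f γ hγ
    have hlt : l + k < (q' γ).word.length := by omega
    rcases hw : (q' γ).word[l + k]'hlt with ⟨i, f⟩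
    refine ⟨i, ?_⟩
    rw [List.getElem?_eq_getElem hlt, hw]
    cases f with
    | false => rfl
    | true =>
      exfalso
      obtain ⟨i', hi'⟩ := h2 (l + k) (by omega) ⟨i, by rw [List.getElem?_eq_getElem hlt, hw]⟩
      rw [Sys.cut_lt hγα] at hi'
      have h3 := (List.getElem?_eq_some_iff.1 hi').1
      have h4 := hγu γ hγ
      omega
  have hEnt : S.EntOk α x := ⟨fun hc => absurd (hα.symm.trans hc) (by simp),
    fun _ γ hγ => hside γ hγ⟩
  have hLoc : S.Loc α q' (S.LeB α q') x (p α) := by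
    refine ⟨Finset.Subset.refl _, [β], rfl, ?_⟩
    intro a β' c hbs
    have h1 : a = [] ∧ β' = β ∧ c = [] := by
      rcases a with _ | ⟨a0, a⟩
      · rw [List.nil_append, List.cons.injEq] at hbs
        exact ⟨rfl, hbs.1.symm, hbs.2.symm⟩
      · simp at hbs
    obtain ⟨rfl, rfl, rfl⟩ := h1
    rw [if_neg (by rw [hα]; simp), List.append_nil]
    exact hOk
  obtain ⟨hc1, hc2, hc3⟩ := Sys.mix_le (x := x) hq' hp hqp hEnt hLoc
  have hqt : S.Le (Sys.mix α q' x p) (S.res H r) := hc3.trans hq't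
  refine ⟨Sys.mix α q' x p, hc1, hc2, u, v, hmu, by omega, ?_, ?_, ?_, ?_⟩
  · rw [Sys.mix_self, hxword, List.length_append, hβlen]
    omega
  · exact hJu.mono fun c hc => hqt.trans hc
  · exact hJv.mono fun c hc => hqt.trans hc
  · intro k hk1 hk2
    refine ⟨bit k, false, ?_, (hbit k hk2).mono fun c hc => hqt.trans hc⟩
    rw [Sys.mix_self, hxword, List.getElem?_append_right (by omega), hβget _ (by omega)]
    have h1 : l + (k - l) = k := by omega
    rw [← hl, h1, if_neg (by omega)]

end Pool.Agent.Helper60.MA
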