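import Pool.Agent.Helper60.MA.GDefs
import Pool.Agent.Helper67.MA.SEQ

/-!
# Block PT: monotonicity of names, names of infinite sets
-/

set_option linter.unusedSectionVars false
set_option linter.unusedVariables false

namespace Pool.Agent.Helper60.MA

variable {Ω L : Type} [LinearOrder Ω] [LinearOrder L] [WellFoundedLT Ω] {S : Sys Ω L}

theorem Sys.CondB.le_cut_of_le {e : Ω} {c r : Cd Ω} (hc : S.CondB e c) (h : S.Le r c) :
    S.Le (Sys.cut e r) c := by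
  have h1 := Sys.cut_le_cut (h.leB e)
  rwa [Sys.cut_eq_self (fun d hd => hc.zero_of_le hd)] at h1

theorem Sys.mix_condB {e e' : Ω} (h : e ≤ e') {q p : Cd Ω} (hq : S.CondB e q)
    (hp : S.CondB e' p) (hqp : S.Le q (Sys.cut e p)) :
    S.CondB e' (Sys.mix e q (p e) p) ∧ S.Le (Sys.mix e q (p e) p) p ∧
      S.Le (Sys.mix e q (p e) p) q := by
  obtain ⟨h1, h2, h3⟩ := Sys.mix_le' hq hp.cond (Sys.LeB_cut_right.1 (hqp.leB e))
  refine ⟨Sys.CondB_iff'.2 ⟨h1, fun d hd => ?_⟩, h2, h3⟩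
  rcases lt_trichotomy d e with hde | rfl | hde
  · exact hde.trans_le h
  · rw [Sys.mix_self] at hd
    exact hp.lt hd
  · rw [Sys.mix_gt hde] at hd
    exact hp.lt hd

/-- block PT: monotonicity in the coordinate, names with infinitely many ones -/
theorem Sys.Nme.mono {e e' : Ω} (h : e ≤ e') {ν : Ω} (hν : S.Nme e ν) : S.Nme e' ν := by
  refine ⟨fun k n => (hν.mem k n).mono h, fun k p hp => ?_, fun k m n r hr h1 h2 => ?_⟩
  · obtain ⟨n, r, h1, h2, h3⟩ := hν.pre k (Sys.cut e p) (hp.cond.cut e)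
    obtain ⟨h4, h5, h6⟩ := Sys.mix_condB h h1 hp h2
    exact ⟨n, _, h4, h5, h6.trans h3⟩
  · exact hν.coh k m n (Sys.cut e r) (hr.cond.cut e) ((hν.mem k m).le_cut_of_le h1)
      ((hν.mem k n).le_cut_of_le h2)

theorem Sys.isPart_mono {e e' : Ω} (h : e ≤ e') {ν : Ω} (hν : S.Nme e ν)
    (hp : S.IsPart (S.CondB e) ν) : S.IsPart (S.CondB e') ν := by
  intro p hpB m
  obtain ⟨q, k, h1, h2, h3, h4⟩ := hp (Sys.cut e p) (hpB.cond.cut e) m
  obtain ⟨h5, h6, h7⟩ := Sys.mix_condB h h1 hpB h2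
  exact ⟨_, k, h5, h6, h3, h4.mono fun c hc => h7.trans hc⟩

/-- the value of a bit, from a listed condition in the filter -/
theorem Sys.rl_eq {e ν : Ω} (hν : S.Nme e ν) {G : Set (Cd Ω)} (hG : ∀ p ∈ G, S.Cond p)
    (hdir : ∀ p ∈ G, ∀ q ∈ G, ∃ r ∈ G, S.Le r p ∧ S.Le r q) {k n : ℕ}
    (hn : (S.dec ν k n).1 ∈ G) : rl S G ν k = (S.dec ν k n).2 := by
  classical
  unfold rl
  rcases hb : (S.dec ν k n).2 with _ | _
  · apply decide_eq_false
    rintro ⟨n', h1, h2⟩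
    obtain ⟨r, hr, h3, h4⟩ := hdir _ hn _ h1
    have h5 := hν.coh k n n' (Sys.cut e r) ((hG r hr).cut e) ((hν.mem k n).le_cut_of_le h3)
      ((hν.mem k n').le_cut_of_le h4)
    rw [hb, h2] at h5
    cases h5
  · exact decide_eq_true ⟨n, hn, hb⟩

theorem Sys.exists_part {e J : Ω} (hJ : S.Nme e J) : ∃ J', S.Nme e J' ∧
    S.IsPart (S.CondB e) J' ∧ ∀ G : Set (Cd Ω), (∀ p ∈ G, S.Cond p) →
      (∀ p ∈ G, ∀ q, S.Cond q → S.Le p q → q ∈ G) →
      (∀ p ∈ G, ∀ q ∈ G, ∃ r ∈ G, S.Le r p ∧ S.Le r q) →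
      (∀ k, ∃ n, (S.dec J k n).1 ∈ G) → (∀ k, ∃ n, (S.dec J' k n).1 ∈ G) →
      Inf (rl S G J) → rl S G J' = rl S G J := by
  set F : Cd Ω → Prop := fun q => ∃ m, ∀ r, S.CondB e r → S.Le r q → ∀ k, m ≤ k →
    ¬ S.Says (S.Le r) J k true with hF
  have hFmono : ∀ q r, F q → S.Le r q → F r := by
    rintro q r ⟨m, hm⟩ hrq
    exact ⟨m, fun r' h1 h2 => hm r' h1 (h2.trans hrq)⟩
  set E : ℕ → Cd Ω → Bool → Prop := fun k t i => S.CondB e t ∧
    ((i = true ∧ (F t ∨ S.Says (S.Le t) J k true)) ∨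
      (i = false ∧ S.Says (S.Le t) J k false ∧ ∀ r, S.CondB e r → S.Le r t → ¬ F r)) with hE
  have hcoh : ∀ k r, S.CondB e r → S.Says (S.Le r) J k true → S.Says (S.Le r) J k false →
      False := by
    rintro k r hr ⟨n, h1, h2⟩ ⟨n', h3, h4⟩
    have h5 := hJ.coh k n n' r hr h2 h4
    rw [h1, h3] at h5
    cases h5
  obtain ⟨J', hJ', hJE⟩ := Sys.exists_name (S := S) (C := S.CondB e) (fun p hp => hp.cond)
    (fun p q r hp hq hr h1 h2 => ⟨Sys.cut e r, hr.cut e, hp.le_cut_of_le h1,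
      hq.le_cut_of_le h2⟩) (Sys.condB_zero e) E (fun k t i h => h.1)
    (by
      intro k p hp
      by_cases h : ∃ q, S.CondB e q ∧ S.Le q p ∧ F q
      · obtain ⟨q, h1, h2, h3⟩ := h
        exact ⟨q, true, q, ⟨h1, Or.inl ⟨rfl, Or.inl h3⟩⟩, h1, h2, Sys.Le.refl q⟩
      · push Not at h
        obtain ⟨n, r, h1, h2, h3⟩ := hJ.pre k p hp
        rcases hb : (S.dec J k n).2 with _ | _
        · exact ⟨r, false, r, ⟨h1, Or.inr ⟨rfl, ⟨n, hb, h3⟩, fun r' h4 h5 =>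
            h r' h4 (h5.trans h2)⟩⟩, h1, h2, Sys.Le.refl r⟩
        · exact ⟨r, true, r, ⟨h1, Or.inl ⟨rfl, Or.inr ⟨n, hb, h3⟩⟩⟩, h1, h2, Sys.Le.refl r⟩)
    (by
      have key : ∀ k t t' r, E k t true → E k t' false → S.CondB e r → S.Le r t → S.Le r t' →
          False := by
        rintro k t t' r ⟨h1, h2⟩ ⟨h3, h4⟩ hr h5 h6
        rcases h4 with ⟨h4, _⟩ | ⟨_, h4, h7⟩
        · cases h4
        rcases h2 with ⟨_, h2⟩ | ⟨h2, _⟩
        · rcases h2 with h2 | h2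
          · exact h7 r hr h6 (hFmono t r h2 h5)
          · exact hcoh k r hr (h2.mono fun c hc => h5.trans hc) (h4.mono fun c hc => h6.trans hc)
        · cases h2
      intro k t t' i i' r h1 h2 hr h3 h4
      cases i <;> cases i'
      · rfl
      · exact (key k t' t r h2 h1 hr h4 h3).elim
      · exact (key k t t' r h1 h2 hr h3 h4).elim
      · rfl)
  refine ⟨J', hJ', ?_, ?_⟩
  · intro p hp m
    by_cases h : ∃ q, S.CondB e q ∧ S.Le q p ∧ F q
    · obtain ⟨q, h1, h2, h3⟩ := h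
      obtain ⟨n, r, h4, h5, h6⟩ := hJ'.pre m q h1
      refine ⟨r, m, h4, h5.trans h2, le_refl _, n, ?_, h6⟩
      rcases (hJE m n).2 with ⟨h7, _⟩ | ⟨_, _, h7⟩
      · exact h7
      · exact (h7 r h4 h6 (hFmono q r h3 h5)).elim
    · push Not at h
      have hnF := h p hp (Sys.Le.refl p)
      simp only [hF] at hnF
      push Not at hnF
      obtain ⟨r, h1, h2, k, h3, h4⟩ := hnF m
      obtain ⟨n, r', h5, h6, h7⟩ := hJ'.pre k r h1
      refine ⟨r', k, h5, h6.trans h2, h3, n, ?_, h7⟩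
      rcases (hJE k n).2 with ⟨h8, _⟩ | ⟨_, h8, _⟩
      · exact h8
      · exact (hcoh k r' h5 (h4.mono fun c hc => h6.trans hc)
          (h8.mono fun c hc => h7.trans hc)).elim
  · intro G hG hup hdir hGJ hGJ' hinf
    classical
    funext k
    obtain ⟨n, hn⟩ := hGJ' k
    rw [Sys.rl_eq hJ' hG hdir hn]
    rcases (hJE k n).2 with ⟨h1, h2⟩ | ⟨h1, ⟨n1, h2, h3⟩, _⟩
    · rcases h2 with h2 | ⟨n1, h2, h3⟩
      · exfalso
        obtain ⟨m, hm⟩ := h2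
        obtain ⟨k', hk', hk''⟩ := hinf m
        unfold rl at hk''
        obtain ⟨n', h4, h5⟩ := of_decide_eq_true hk''
        obtain ⟨r, hr, h6, h7⟩ := hdir _ hn _ h4
        exact hm (Sys.cut e r) ((hG r hr).cut e) ((hJ'.mem k n).le_cut_of_le h6) k' hk'
          ⟨n', h5, (hJ.mem k' n').le_cut_of_le h7⟩
      · have h4 : (S.dec J k n1).1 ∈ G := hup _ hn _ (hJ.mem k n1).cond h3
        rw [Sys.rl_eq hJ hG hdir h4, h1, h2]
    · have h4 : (S.dec J k n1).1 ∈ G := hup _ hn _ (hJ.mem k n1).cond h3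
      rw [Sys.rl_eq hJ hG hdir h4, h1, h2]

end Pool.Agent.Helper60.MA
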